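import Mathlib

/-! A continuous function on `ℝ^d` whose restriction to every curve that is differentiable at a
point with non-zero derivative fails to be differentiable at that point. The function is
`f x = ∑ b^{-k} cos (b^{2k} x_{k mod d})` for a large integer `b`. -/

open Set Filter Topology

namespace Pool.Agent.Results.MP_047b76_an.AlongCurves

/-- The space `ℝ^d` with its Euclidean norm. -/
abbrev Sp (d : ℕ) : Type := EuclideanSpace ℝ (Fin d)

/-- The `k`-th summand. -/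
noncomputable def term (d : ℕ) (hd : 0 < d) (b : ℝ) (k : ℕ) (x : Sp d) : ℝ :=
  (b⁻¹) ^ k * Real.cos ((b ^ 2) ^ k * x ⟨k % d, Nat.mod_lt _ hd⟩)

/-- The function. -/
noncomputable def fn (d : ℕ) (hd : 0 < d) (b : ℝ) (x : Sp d) : ℝ := ∑' k, term d hd b k x

lemma abs_term_le (d : ℕ) (hd : 0 < d) {b : ℝ} (hb : 1 < b) (k : ℕ) (x : Sp d) :
    |term d hd b k x| ≤ (b⁻¹) ^ k := by
  unfold term
  rw [abs_mul, abs_of_nonneg (by positivity : (0 : ℝ) ≤ (b⁻¹) ^ k)]
  exact mul_le_of_le_one_right (by positivity) (Real.abs_cos_le_one _)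

lemma summable_geo {b : ℝ} (hb : 1 < b) : Summable (fun k : ℕ => (b⁻¹) ^ k) :=
  summable_geometric_of_lt_one (by positivity) (inv_lt_one_of_one_lt₀ hb)

lemma summable_term (d : ℕ) (hd : 0 < d) {b : ℝ} (hb : 1 < b) (x : Sp d) :
    Summable (fun k => term d hd b k x) :=
  Summable.of_norm_bounded (summable_geo hb) (fun k => abs_term_le d hd hb k x)

lemma continuous_fn (d : ℕ) (hd : 0 < d) {b : ℝ} (hb : 1 < b) : Continuous (fn d hd b) := by
  refine continuous_tsum (fun k => ?_) (summable_geo hb) (fun k x => abs_term_le d hd hb k x)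
  unfold term
  fun_prop

/-- Perturbed second difference of the cosine. -/
lemma second_diff {A θ s h e zp zm z0 : ℝ} (hp : |zp - (A + θ * (s + h))| ≤ e)
    (hm : |zm - (A + θ * (s - h))| ≤ e) (h0 : |z0 - (A + θ * s)| ≤ e) :
    |(Real.cos zp + Real.cos zm - 2 * Real.cos z0) -
      (-2 * (1 - Real.cos (θ * h)) * Real.cos (A + θ * s))| ≤ 4 * e := by
  have e1 : Real.cos (A + θ * (s + h)) + Real.cos (A + θ * (s - h)) - 2 * Real.cos (A + θ * s) =
      -2 * (1 - Real.cos (θ * h)) * Real.cos (A + θ * s) := by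
    have h1 : A + θ * (s + h) = (A + θ * s) + θ * h := by ring
    have h2 : A + θ * (s - h) = (A + θ * s) - θ * h := by ring
    rw [h1, h2, Real.cos_add, Real.cos_sub]
    ring
  rw [← e1]
  have a1 := (Real.abs_cos_sub_cos_le zp (A + θ * (s + h))).trans hp
  have a2 := (Real.abs_cos_sub_cos_le zm (A + θ * (s - h))).trans hm
  have a3 := (Real.abs_cos_sub_cos_le z0 (A + θ * s)).trans h0
  rw [abs_le] at a1 a2 a3 ⊢
  constructor <;> linarith [a1.1, a1.2, a2.1, a2.2, a3.1, a3.2]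

/-- The gap constant. -/
noncomputable def eta (d : ℕ) : ℝ :=
  (1 - Real.cos (1 / (4 * Real.sqrt d))) * Real.sin (1 / (2 * Real.sqrt d))

lemma sqrt_ge_one {d : ℕ} (hd : 0 < d) : 1 ≤ Real.sqrt d := by
  rw [Real.one_le_sqrt]
  exact_mod_cast hd

lemma eta_pos {d : ℕ} (hd : 0 < d) : 0 < eta d := by
  have h1 := sqrt_ge_one hd
  have hpi := Real.pi_gt_three
  have h2 : 0 < 1 / (4 * Real.sqrt d) := by positivity
  have h3 : 1 / (4 * Real.sqrt d) ≤ 1 := by
    rw [div_le_one (by positivity)]; linarith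
  have h4 : 0 < 1 / (2 * Real.sqrt d) := by positivity
  have h5 : 1 / (2 * Real.sqrt d) ≤ 1 := by
    rw [div_le_one (by positivity)]; linarith
  have h6 : Real.cos (1 / (4 * Real.sqrt d)) < Real.cos 0 :=
    Real.cos_lt_cos_of_nonneg_of_le_pi le_rfl (by linarith) h2
  rw [Real.cos_zero] at h6
  have h7 : 0 < Real.sin (1 / (2 * Real.sqrt d)) := Real.sin_pos_of_pos_of_lt_pi h4 (by linarith)
  unfold eta
  exact mul_pos (by linarith) h7

lemma eta_le_two (d : ℕ) : eta d ≤ 2 := by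
  unfold eta
  have h1 : 1 - Real.cos (1 / (4 * Real.sqrt d)) ≤ 2 := by
    linarith [Real.neg_one_le_cos (1 / (4 * Real.sqrt d))]
  have h0 : 0 ≤ 1 - Real.cos (1 / (4 * Real.sqrt d)) := by
    linarith [Real.cos_le_one (1 / (4 * Real.sqrt d))]
  have h2 := Real.sin_le_one (1 / (2 * Real.sqrt d))
  calc _ ≤ (1 - Real.cos (1 / (4 * Real.sqrt d))) * 1 := by gcongr
    _ ≤ 2 := by linarith

/-- For a frequency `θ` with `1/√d ≤ |θ| ≤ 1`, one of the two second differences with step `1/4`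
based at `1/4` or `3/4` is at least `η`. -/
lemma main_gap {d : ℕ} (hd : 0 < d) {A θ : ℝ} (h1 : 1 / Real.sqrt d ≤ |θ|) (h2 : |θ| ≤ 1) :
    ∃ s : ℝ, (s = 1 / 4 ∨ s = 3 / 4) ∧
      eta d ≤ |-2 * (1 - Real.cos (θ * (1 / 4))) * Real.cos (A + θ * s)| := by
  have hs := sqrt_ge_one hd
  have hpi := Real.pi_gt_three
  -- cos part
  have hc : 1 - Real.cos (1 / (4 * Real.sqrt d)) ≤ 1 - Real.cos (θ * (1 / 4)) := by
    have e1 : Real.cos (θ * (1 / 4)) = Real.cos (|θ| * (1 / 4)) := by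
      rw [← Real.cos_abs (θ * (1 / 4)), abs_mul, abs_of_pos (by norm_num : (0 : ℝ) < 1 / 4)]
    have e2 : 1 / (4 * Real.sqrt d) ≤ |θ| * (1 / 4) := by
      have : 1 / (4 * Real.sqrt d) = 1 / Real.sqrt d * (1 / 4) := by field_simp
      rw [this]; gcongr
    have e3 : Real.cos (|θ| * (1 / 4)) ≤ Real.cos (1 / (4 * Real.sqrt d)) :=
      Real.cos_le_cos_of_nonneg_of_le_pi (by positivity) (by linarith) e2
    rw [e1]; linarith
  have hc0 : 0 ≤ 1 - Real.cos (1 / (4 * Real.sqrt d)) := by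
    linarith [Real.cos_le_one (1 / (4 * Real.sqrt d))]
  -- sin part
  have hsin : Real.sin (1 / (2 * Real.sqrt d)) ≤ |Real.sin (θ * (1 / 2))| := by
    have e1 : |Real.sin (θ * (1 / 2))| = Real.sin (|θ| * (1 / 2)) := by
      rcases le_total 0 θ with h | h
      · rw [abs_of_nonneg h, abs_of_nonneg]
        apply Real.sin_nonneg_of_nonneg_of_le_pi (by positivity)
        rw [abs_of_nonneg h] at h2; linarith
      · rw [abs_of_nonpos h, abs_of_nonpos, ← Real.sin_neg]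
        · ring_nf
        · rw [abs_of_nonpos h] at h2
          have := Real.sin_nonneg_of_nonneg_of_le_pi (x := (-θ) * (1 / 2)) (by linarith)
            (by linarith)
          rw [show (-θ) * (1 / 2) = -(θ * (1 / 2)) by ring, Real.sin_neg] at this
          linarith
    have e2 : 1 / (2 * Real.sqrt d) ≤ |θ| * (1 / 2) := by
      have : 1 / (2 * Real.sqrt d) = 1 / Real.sqrt d * (1 / 2) := by field_simp
      rw [this]; gcongr
    rw [e1]
    apply Real.sin_le_sin_of_le_of_le_pi_div_two _ _ e2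
    · have : 0 ≤ 1 / (2 * Real.sqrt d) := by positivity
      linarith
    · linarith
  have hs0 : 0 ≤ Real.sin (1 / (2 * Real.sqrt d)) := by
    apply Real.sin_nonneg_of_nonneg_of_le_pi (by positivity)
    have : 1 / (2 * Real.sqrt d) ≤ 1 := by
      rw [div_le_one (by positivity)]; linarith
    linarith
  have hsum : |Real.sin (θ * (1 / 2))| ≤
      |Real.cos (A + θ * (1 / 4))| + |Real.cos (A + θ * (3 / 4))| := by
    have e : Real.sin (θ * (1 / 2)) = Real.sin (A + θ * (3 / 4)) * Real.cos (A + θ * (1 / 4)) -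
        Real.cos (A + θ * (3 / 4)) * Real.sin (A + θ * (1 / 4)) := by
      rw [← Real.sin_sub]; ring_nf
    rw [e]
    refine (abs_sub _ _).trans ?_
    rw [abs_mul, abs_mul]
    have a1 := Real.abs_sin_le_one (A + θ * (3 / 4))
    have a2 := Real.abs_sin_le_one (A + θ * (1 / 4))
    have b1 := abs_nonneg (Real.cos (A + θ * (1 / 4)))
    have b2 := abs_nonneg (Real.cos (A + θ * (3 / 4)))
    nlinarith
  have hone : ∃ s : ℝ, (s = 1 / 4 ∨ s = 3 / 4) ∧
      Real.sin (1 / (2 * Real.sqrt d)) ≤ 2 * |Real.cos (A + θ * s)| := by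
    by_contra hcon
    push Not at hcon
    have c1 := hcon (1 / 4) (Or.inl rfl)
    have c2 := hcon (3 / 4) (Or.inr rfl)
    linarith
  obtain ⟨s, hs', hs''⟩ := hone
  refine ⟨s, hs', ?_⟩
  rw [abs_mul, abs_mul, abs_of_nonneg (le_trans hc0 hc)]
  have : |(-2 : ℝ)| = 2 := by norm_num
  rw [this]
  unfold eta
  calc _ ≤ (1 - Real.cos (θ * (1 / 4))) * (2 * |Real.cos (A + θ * s)|) := by
        gcongr
        exact le_trans hc0 hc
    _ = _ := by ring

/-- A unit vector has a coordinate of modulus at least `1/√d`. -/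
lemma exists_coord {d : ℕ} (hd : 0 < d) (v : Sp d) (hv : ‖v‖ = 1) :
    ∃ i, 1 / Real.sqrt d ≤ |v i| := by
  by_contra hcon
  push Not at hcon
  have h1 : ‖v‖ ^ 2 = ∑ i, (v i) ^ 2 := by
    rw [EuclideanSpace.norm_sq_eq]
    simp
  have : Nonempty (Fin d) := ⟨⟨0, hd⟩⟩
  have h2 : ∑ i, (v i) ^ 2 < ∑ _i : Fin d, (1 / (d : ℝ)) := by
    apply Finset.sum_lt_sum_of_nonempty Finset.univ_nonempty
    intro i _
    have h3 := hcon i
    have h4 : |v i| ^ 2 < (1 / Real.sqrt d) ^ 2 := by gcongr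
    rw [sq_abs, div_pow, Real.sq_sqrt (by positivity), one_pow] at h4
    exact h4
  rw [← h1, hv] at h2
  simp at h2
  have : (d : ℝ) ≠ 0 := by exact_mod_cast hd.ne'
  rw [mul_inv_cancel₀ this] at h2
  linarith

/-- The core contradiction: a one-sided unit speed germ. -/
lemma core {d : ℕ} (hd : 0 < d) {b : ℝ} (hb : 2 ≤ b) (hbe : 40 / eta d ≤ b)
    {c : ℝ → Sp d} {v : Sp d} {q : ℝ} (hv : ‖v‖ = 1)
    (hc : HasDerivWithinAt c v (Ici 0) 0)
    (hq : HasDerivWithinAt (fun t => fn d hd b (c t)) q (Ici 0) 0) : False := by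
  have hη := eta_pos hd
  have hη2 := eta_le_two d
  set η := eta d with hηdef
  have hb1 : 1 < b := by linarith
  have hb0 : 0 < b := by linarith
  obtain ⟨i, hi⟩ := exists_coord hd v hv
  have hvi : ∀ j, |v j| ≤ 1 := by
    intro j
    rw [← hv]
    exact PiLp.norm_apply_le v j
  -- error bound
  set ε : ℝ := η / 40 with hε
  have hε0 : 0 < ε := by positivity
  have E1 : ∀ᶠ t in 𝓝[≥] (0 : ℝ), ‖c t - c 0 - t • v‖ ≤ ε * t := by
    have := (hasDerivWithinAt_iff_isLittleO.mp hc).def hε0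
    filter_upwards [this, self_mem_nhdsWithin] with t ht ht0
    simpa [Real.norm_eq_abs, abs_of_nonneg (show (0 : ℝ) ≤ t from ht0)] using ht
  have E2 : ∀ᶠ t in 𝓝[≥] (0 : ℝ), |fn d hd b (c t) - fn d hd b (c 0) - t * q| ≤ ε * t := by
    have := (hasDerivWithinAt_iff_isLittleO.mp hq).def hε0
    filter_upwards [this, self_mem_nhdsWithin] with t ht ht0
    simpa [Real.norm_eq_abs, abs_of_nonneg (show (0 : ℝ) ≤ t from ht0)] using ht
  obtain ⟨δ, hδ0, hδ⟩ : ∃ δ > 0, ∀ t, 0 ≤ t → t < δ → ‖c t - c 0 - t • v‖ ≤ ε * t ∧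
      |fn d hd b (c t) - fn d hd b (c 0) - t * q| ≤ ε * t := by
    have h := (E1.and E2)
    rw [eventually_nhdsWithin_iff, Metric.eventually_nhds_iff] at h
    obtain ⟨δ, hδ0, hδ⟩ := h
    refine ⟨δ, hδ0, fun t ht0 htδ => hδ ?_ ht0⟩
    rw [Real.dist_eq, sub_zero, abs_of_nonneg ht0]
    exact htδ
  -- the scale
  set B : ℝ := b ^ 2 with hB
  have hB1 : 1 < B := by rw [hB]; nlinarith
  have hB0 : 0 < B := by linarith
  obtain ⟨m, hm⟩ : ∃ m : ℕ, (B⁻¹) ^ m < δ :=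
    exists_pow_lt_of_lt_one hδ0 (inv_lt_one_of_one_lt₀ hB1)
  set n : ℕ := d * m + i with hn
  have hnm : m ≤ n := by
    have : m ≤ d * m := Nat.le_mul_of_pos_left m hd
    omega
  have hnmod : n % d = i := by
    rw [hn, Nat.mul_add_mod]; exact Nat.mod_eq_of_lt i.2
  have hτ : (B⁻¹) ^ n < δ := lt_of_le_of_lt
    (pow_le_pow_of_le_one (by positivity) (inv_le_one_of_one_le₀ hB1.le) hnm) hm
  have hτ0 : 0 < (B⁻¹) ^ n := by positivity
  set τ : ℝ := (B⁻¹) ^ n with hτdef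
  have pt : ∀ s : ℝ, 0 ≤ s → s ≤ 1 → ‖c (τ * s) - c 0 - (τ * s) • v‖ ≤ ε * τ ∧
      |fn d hd b (c (τ * s)) - fn d hd b (c 0) - (τ * s) * q| ≤ ε * τ := by
    intro s hs0 hs1
    have h1 : τ * s ≤ τ := mul_le_of_le_one_right hτ0.le hs1
    have h2 := hδ (τ * s) (by positivity) (lt_of_le_of_lt h1 hτ)
    have h3 : ε * (τ * s) ≤ ε * τ := by gcongr
    exact ⟨h2.1.trans h3, h2.2.trans h3⟩
  obtain ⟨s, hs, hgap⟩ := main_gap hd (A := B ^ n * (c 0 i)) (θ := v i) hi (hvi i)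
  have hs0 : 0 ≤ s - 1 / 4 ∧ s + 1 / 4 ≤ 1 := by
    rcases hs with rfl | rfl <;> norm_num
  obtain ⟨p1, p1'⟩ := pt (s + 1 / 4) (by linarith) (by linarith)
  obtain ⟨p2, p2'⟩ := pt (s - 1 / 4) (by linarith) (by linarith)
  obtain ⟨p3, p3'⟩ := pt s (by linarith) (by linarith)
  set xp := c (τ * (s + 1 / 4)) with hxp
  set xm := c (τ * (s - 1 / 4)) with hxm
  set x0 := c (τ * s) with hx0
  -- second difference of the function along the curve
  let u : ℕ → ℝ := fun k => term d hd b k xp + term d hd b k xm - 2 * term d hd b k x0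
  have hu_sum : Summable u :=
    ((summable_term d hd hb1 xp).add (summable_term d hd hb1 xm)).sub
      ((summable_term d hd hb1 x0).mul_left 2)
  have hu_tsum : ∑' k, u k = fn d hd b xp + fn d hd b xm - 2 * fn d hd b x0 := by
    simp only [u, fn]
    rw [Summable.tsum_sub ((summable_term d hd hb1 xp).add (summable_term d hd hb1 xm))
      ((summable_term d hd hb1 x0).mul_left 2),
      Summable.tsum_add (summable_term d hd hb1 xp) (summable_term d hd hb1 xm), tsum_mul_left]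
  have hF : |∑' k, u k| ≤ 4 * (ε * τ) := by
    rw [hu_tsum]
    rw [abs_le] at p1' p2' p3' ⊢
    constructor <;> nlinarith [p1'.1, p1'.2, p2'.1, p2'.2, p3'.1, p3'.2]
  have hdec : (∑ k ∈ Finset.range n, u k) + u n + ∑' k, u (k + (n + 1)) = ∑' k, u k := by
    rw [← Finset.sum_range_succ]
    exact Summable.sum_add_tsum_nat_add (n + 1) hu_sum
  -- coordinates
  have hcoord : ∀ (x : Sp d) (t : ℝ), ‖x - c 0 - (τ * t) • v‖ ≤ ε * τ → ∀ (k : ℕ) (j : Fin d),
      |B ^ k * x j - (B ^ k * c 0 j + (B ^ k * τ * v j) * t)| ≤ B ^ k * (ε * τ) := by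
    intro x t hx k j
    have h1 : |x j - c 0 j - (τ * t) * v j| ≤ ε * τ := by
      refine le_trans ?_ hx
      have := PiLp.norm_apply_le (x - c 0 - (τ * t) • v) j
      simpa using this
    have h2 : B ^ k * x j - (B ^ k * c 0 j + (B ^ k * τ * v j) * t) =
        B ^ k * (x j - c 0 j - (τ * t) * v j) := by ring
    rw [h2, abs_mul, abs_of_pos (by positivity)]
    gcongr
  have hDk : ∀ k : ℕ, |(Real.cos (B ^ k * xp ⟨k % d, Nat.mod_lt _ hd⟩) +
      Real.cos (B ^ k * xm ⟨k % d, Nat.mod_lt _ hd⟩) -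
      2 * Real.cos (B ^ k * x0 ⟨k % d, Nat.mod_lt _ hd⟩)) -
      (-2 * (1 - Real.cos ((B ^ k * τ * v ⟨k % d, Nat.mod_lt _ hd⟩) * (1 / 4))) *
        Real.cos (B ^ k * c 0 ⟨k % d, Nat.mod_lt _ hd⟩ +
          (B ^ k * τ * v ⟨k % d, Nat.mod_lt _ hd⟩) * s))| ≤ 4 * (B ^ k * (ε * τ)) := by
    intro k
    exact second_diff (hcoord xp _ p1 k _) (hcoord xm _ p2 k _) (hcoord x0 _ p3 k _)
  have hu_eq : ∀ k, u k = (b⁻¹) ^ k * (Real.cos (B ^ k * xp ⟨k % d, Nat.mod_lt _ hd⟩) +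
      Real.cos (B ^ k * xm ⟨k % d, Nat.mod_lt _ hd⟩) -
      2 * Real.cos (B ^ k * x0 ⟨k % d, Nat.mod_lt _ hd⟩)) := by
    intro k
    simp only [u, term, hB]
    ring
  -- tail
  have htail : |∑' k, u (k + (n + 1))| ≤ (b⁻¹) ^ n * (4 * (b - 1)⁻¹) := by
    have h1 : ∀ k, ‖u (k + (n + 1))‖ ≤ (b⁻¹) ^ n * (4 * b⁻¹) * (b⁻¹) ^ k := by
      intro k
      rw [Real.norm_eq_abs, hu_eq, abs_mul, abs_of_nonneg (by positivity)]
      have h2 : |Real.cos (B ^ (k + (n + 1)) * xp ⟨(k + (n + 1)) % d, Nat.mod_lt _ hd⟩) +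
          Real.cos (B ^ (k + (n + 1)) * xm ⟨(k + (n + 1)) % d, Nat.mod_lt _ hd⟩) -
          2 * Real.cos (B ^ (k + (n + 1)) * x0 ⟨(k + (n + 1)) % d, Nat.mod_lt _ hd⟩)| ≤ 4 := by
        have a1 := Real.abs_cos_le_one
          (B ^ (k + (n + 1)) * xp ⟨(k + (n + 1)) % d, Nat.mod_lt _ hd⟩)
        have a2 := Real.abs_cos_le_one
          (B ^ (k + (n + 1)) * xm ⟨(k + (n + 1)) % d, Nat.mod_lt _ hd⟩)
        have a3 := Real.abs_cos_le_one
          (B ^ (k + (n + 1)) * x0 ⟨(k + (n + 1)) % d, Nat.mod_lt _ hd⟩)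
        rw [abs_le] at a1 a2 a3 ⊢
        constructor <;> linarith [a1.1, a1.2, a2.1, a2.2, a3.1, a3.2]
      calc (b⁻¹) ^ (k + (n + 1)) * _ ≤ (b⁻¹) ^ (k + (n + 1)) * 4 := by gcongr
        _ = _ := by rw [pow_add, pow_succ]; ring
    have hgeo : HasSum (fun k : ℕ => (b⁻¹) ^ n * (4 * b⁻¹) * (b⁻¹) ^ k)
        ((b⁻¹) ^ n * (4 * b⁻¹) * (1 - b⁻¹)⁻¹) :=
      (hasSum_geometric_of_lt_one (by positivity) (inv_lt_one_of_one_lt₀ hb1)).mul_left _
    have h2 := tsum_of_norm_bounded hgeo h1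
    rw [Real.norm_eq_abs] at h2
    refine h2.trans (le_of_eq ?_)
    have hb1' : b - 1 ≠ 0 := by linarith
    have : (1 - b⁻¹)⁻¹ = b * (b - 1)⁻¹ := by
      rw [show 1 - b⁻¹ = (b - 1) * b⁻¹ by field_simp, mul_inv, inv_inv]; ring
    rw [this]
    field_simp
  -- head
  have hhead : |∑ k ∈ Finset.range n, u k| ≤ (b⁻¹) ^ n * (2 * (b - 1)⁻¹) := by
    have h1 : ∀ k ∈ Finset.range n, |u k| ≤ (b⁻¹) ^ n * (2 * (b⁻¹) ^ (n - k)) := by
      intro k hk
      rw [Finset.mem_range] at hk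
      have h2 := hDk k
      set w := v ⟨k % d, Nat.mod_lt _ hd⟩ with hw
      set D := (Real.cos (B ^ k * xp ⟨k % d, Nat.mod_lt _ hd⟩) +
        Real.cos (B ^ k * xm ⟨k % d, Nat.mod_lt _ hd⟩) -
        2 * Real.cos (B ^ k * x0 ⟨k % d, Nat.mod_lt _ hd⟩)) with hD
      have hw1 : |w| ≤ 1 := hvi _
      set R := B ^ k * τ with hR
      have hR0 : 0 < R := by positivity
      have hRval : R = (b⁻¹) ^ (n - k) * (b⁻¹) ^ (n - k) := by
        rw [hR, hτdef, hB]
        have : (b ^ 2)⁻¹ ^ n = (b ^ 2)⁻¹ ^ k * ((b ^ 2)⁻¹ ^ (n - k)) := by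
          rw [← pow_add]; congr 1; omega
        rw [this]
        have h3 : (b ^ 2) ^ k * ((b ^ 2)⁻¹ ^ k * (b ^ 2)⁻¹ ^ (n - k)) = (b ^ 2)⁻¹ ^ (n - k) := by
          rw [← mul_assoc, ← mul_pow, mul_inv_cancel₀ (by positivity), one_pow, one_mul]
        rw [h3, ← mul_pow]
        congr 1
        rw [sq, mul_inv]
      have hr1 : (b⁻¹) ^ (n - k) ≤ 1 := pow_le_one₀ (by positivity) (inv_le_one_of_one_le₀ hb1.le)
      have hr0 : 0 < (b⁻¹) ^ (n - k) := by positivity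
      have hR1 : R ≤ 1 := by rw [hRval]; nlinarith
      have h4 : |-2 * (1 - Real.cos ((R * w) * (1 / 4))) *
          Real.cos (B ^ k * c 0 ⟨k % d, Nat.mod_lt _ hd⟩ + (R * w) * s)| ≤ R := by
        rw [abs_mul, abs_mul]
        have a1 := Real.abs_cos_le_one (B ^ k * c 0 ⟨k % d, Nat.mod_lt _ hd⟩ + (R * w) * s)
        have a2 := Real.one_sub_sq_div_two_le_cos (x := (R * w) * (1 / 4))
        have a3 := Real.cos_le_one ((R * w) * (1 / 4))
        have a4 : (R * w) ^ 2 ≤ R := by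
          have : w ^ 2 ≤ 1 := by rw [← sq_abs]; nlinarith [abs_nonneg w]
          calc (R * w) ^ 2 = R * (R * w ^ 2) := by ring
            _ ≤ R * (1 * 1) := by gcongr
            _ = R := by ring
        have a5 : |1 - Real.cos ((R * w) * (1 / 4))| ≤ R / 32 := by
          rw [abs_of_nonneg (by linarith)]
          nlinarith
        have : |(-2 : ℝ)| = 2 := by norm_num
        rw [this]
        calc _ ≤ 2 * (R / 32) * 1 := by gcongr
          _ ≤ R := by linarith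
      have h5 : |D| ≤ 2 * R := by
        have h6 : |D| ≤ |D - (-2 * (1 - Real.cos ((R * w) * (1 / 4))) *
            Real.cos (B ^ k * c 0 ⟨k % d, Nat.mod_lt _ hd⟩ + (R * w) * s))| +
            |-2 * (1 - Real.cos ((R * w) * (1 / 4))) *
            Real.cos (B ^ k * c 0 ⟨k % d, Nat.mod_lt _ hd⟩ + (R * w) * s)| := by
          have := abs_add_le (D - (-2 * (1 - Real.cos ((R * w) * (1 / 4))) *
            Real.cos (B ^ k * c 0 ⟨k % d, Nat.mod_lt _ hd⟩ + (R * w) * s)))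
            (-2 * (1 - Real.cos ((R * w) * (1 / 4))) *
            Real.cos (B ^ k * c 0 ⟨k % d, Nat.mod_lt _ hd⟩ + (R * w) * s))
          rwa [sub_add_cancel] at this
        have h7 : 4 * (B ^ k * (ε * τ)) ≤ R := by
          have : 4 * (B ^ k * (ε * τ)) = (4 * ε) * R := by rw [hR]; ring
          rw [this]
          have : 4 * ε ≤ 1 := by rw [hε]; linarith
          nlinarith
        linarith
      rw [hu_eq, abs_mul, abs_of_nonneg (by positivity)]
      calc (b⁻¹) ^ k * |D| ≤ (b⁻¹) ^ k * (2 * R) := by gcongr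
        _ = ((b⁻¹) ^ k * (b⁻¹) ^ (n - k)) * (2 * (b⁻¹) ^ (n - k)) := by rw [hRval]; ring
        _ = _ := by rw [← pow_add]; congr 2; omega
    calc |∑ k ∈ Finset.range n, u k| ≤ ∑ k ∈ Finset.range n, |u k| :=
          Finset.abs_sum_le_sum_abs _ _
      _ ≤ ∑ k ∈ Finset.range n, (b⁻¹) ^ n * (2 * (b⁻¹) ^ (n - k)) := Finset.sum_le_sum h1
      _ = (b⁻¹) ^ n * (2 * ∑ k ∈ Finset.range n, (b⁻¹) ^ (n - k)) := by
          rw [Finset.mul_sum, Finset.mul_sum]
      _ ≤ (b⁻¹) ^ n * (2 * (b - 1)⁻¹) := by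
          gcongr
          have h8 : ∑ k ∈ Finset.range n, (b⁻¹) ^ (n - k) =
              ∑ k ∈ Finset.range n, (b⁻¹) ^ (k + 1) := by
            rw [← Finset.sum_range_reflect]
            apply Finset.sum_congr rfl
            intro k hk
            rw [Finset.mem_range] at hk
            congr 1
            omega
          rw [h8]
          have h9 : ∑ k ∈ Finset.range n, (b⁻¹) ^ (k + 1) = b⁻¹ * ∑ k ∈ Finset.range n, (b⁻¹) ^ k := by
            rw [Finset.mul_sum]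
            exact Finset.sum_congr rfl (fun k _ => by rw [pow_succ]; ring)
          rw [h9]
          have h10 : ∑ k ∈ Finset.range n, (b⁻¹) ^ k ≤ (1 - b⁻¹)⁻¹ := by
            rw [← tsum_geometric_of_lt_one (by positivity) (inv_lt_one_of_one_lt₀ hb1)]
            exact (summable_geo hb1).sum_le_tsum _ (fun k _ => by positivity)
          have hb1' : b - 1 ≠ 0 := by linarith
          have : b⁻¹ * (1 - b⁻¹)⁻¹ = (b - 1)⁻¹ := by
            rw [show 1 - b⁻¹ = (b - 1) * b⁻¹ by field_simp, mul_inv, inv_inv]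
            field_simp
          rw [← this]
          gcongr
  -- main term
  have hmain : (b⁻¹) ^ n * (η - 4 * ε) ≤ |u n| := by
    have h2 := hDk n
    have hidx : (⟨n % d, Nat.mod_lt _ hd⟩ : Fin d) = i := Fin.ext hnmod
    have hBτ : B ^ n * τ = 1 := by
      rw [hτdef, ← mul_pow, mul_inv_cancel₀ (by positivity), one_pow]
    rw [hidx] at h2
    rw [hu_eq, abs_mul, abs_of_nonneg (by positivity), hidx]
    have h3 : 4 * (B ^ n * (ε * τ)) = 4 * ε := by
      rw [show B ^ n * (ε * τ) = ε * (B ^ n * τ) by ring, hBτ, mul_one]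
    rw [h3, hBτ, one_mul] at h2
    gcongr
    have h4 := abs_sub_abs_le_abs_sub (-2 * (1 - Real.cos (v i * (1 / 4))) *
      Real.cos (B ^ n * c 0 i + v i * s)) (Real.cos (B ^ n * xp i) + Real.cos (B ^ n * xm i) -
      2 * Real.cos (B ^ n * x0 i))
    rw [abs_sub_comm (-2 * (1 - Real.cos (v i * (1 / 4))) *
      Real.cos (B ^ n * c 0 i + v i * s)) _] at h4
    linarith
  -- conclusion
  have hlast : (b⁻¹) ^ n * (η - 4 * ε) ≤ 4 * (ε * τ) + (b⁻¹) ^ n * (2 * (b - 1)⁻¹) +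
      (b⁻¹) ^ n * (4 * (b - 1)⁻¹) := by
    have h1 : u n = ∑' k, u k - ∑ k ∈ Finset.range n, u k - ∑' k, u (k + (n + 1)) := by
      rw [← hdec]; ring
    have h2 : |u n| ≤ |∑' k, u k| + |∑ k ∈ Finset.range n, u k| + |∑' k, u (k + (n + 1))| := by
      rw [h1]
      exact (abs_sub _ _).trans (by gcongr; exact abs_sub _ _)
    linarith
  have hτb : τ ≤ (b⁻¹) ^ n := by
    rw [hτdef, hB]
    apply pow_le_pow_left₀ (by positivity)
    apply inv_anti₀ hb0
    nlinarith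
  have hbn : 0 < (b⁻¹) ^ n := by positivity
  have h6 : (b⁻¹) ^ n * (η - 4 * ε) ≤ (b⁻¹) ^ n * (4 * ε + 6 * (b - 1)⁻¹) := by
    calc _ ≤ _ := hlast
      _ ≤ 4 * (ε * (b⁻¹) ^ n) + (b⁻¹) ^ n * (2 * (b - 1)⁻¹) + (b⁻¹) ^ n * (4 * (b - 1)⁻¹) := by
          gcongr
      _ = _ := by ring
  have h7 := le_of_mul_le_mul_left h6 hbn
  have h8 : (b - 1)⁻¹ ≤ η / 20 := by
    rw [div_le_iff₀ hη] at hbe
    rw [inv_le_comm₀ (by linarith) (by positivity), inv_div]
    rw [div_le_iff₀ hη]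
    nlinarith
  rw [hε] at h7
  linarith

/-- For every `d ≥ 1` there is a continuous `f : ℝ^d → ℝ` such that for every curve `c` on an
interval `I`, and every point `t₀` of `I` at which `c` has a non-zero derivative, `f ∘ c` is not
differentiable at `t₀`. -/
theorem result (d : ℕ) (hd : 0 < d) :
    ∃ f : EuclideanSpace ℝ (Fin d) → ℝ, Continuous f ∧
      ∀ (I : Set ℝ), I.OrdConnected → I.Nontrivial →
        ∀ (c : ℝ → EuclideanSpace ℝ (Fin d)) (t₀ : ℝ), t₀ ∈ I →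
          ∀ v : EuclideanSpace ℝ (Fin d), v ≠ 0 → HasDerivWithinAt c v I t₀ →
            ¬ DifferentiableWithinAt ℝ (fun t => f (c t)) I t₀ := by
  have hη := eta_pos hd
  set b : ℝ := max 2 (40 / eta d) with hb
  have hb2 : 2 ≤ b := le_max_left _ _
  have hbe : 40 / eta d ≤ b := le_max_right _ _
  refine ⟨fn d hd b, continuous_fn d hd (by linarith), ?_⟩
  intro I hI hnt c t₀ ht₀ v hv hcv hdiff
  obtain ⟨q, hq⟩ : ∃ q, HasDerivWithinAt (fun t => fn d hd b (c t)) q I t₀ :=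
    ⟨_, hdiff.hasDerivWithinAt⟩
  obtain ⟨t₁, ht₁, hne⟩ := hnt.exists_ne t₀
  have hvn : 0 < ‖v‖ := norm_pos_iff.mpr hv
  -- time change
  obtain ⟨σ, hσ, hσ0, κ, hκ, hmem⟩ : ∃ σ : ℝ, |σ| = ‖v‖⁻¹ ∧ σ ≠ 0 ∧ ∃ κ > 0,
      ∀ t ∈ Icc (0 : ℝ) κ, t₀ + σ * t ∈ I := by
    rcases lt_or_gt_of_ne hne with h | h
    · refine ⟨-‖v‖⁻¹, by rw [abs_neg, abs_of_pos (by positivity)], by
        simp [hvn.ne'], (t₀ - t₁) * ‖v‖, by
        have : 0 < t₀ - t₁ := by linarith
        positivity, ?_⟩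
      intro t ht
      apply hI.out ht₁ ht₀
      constructor
      · have : ‖v‖⁻¹ * t ≤ t₀ - t₁ := by
          rw [inv_mul_le_iff₀ hvn]; linarith [ht.2]
        linarith
      · have : 0 ≤ ‖v‖⁻¹ * t := mul_nonneg (by positivity) ht.1
        linarith
    · refine ⟨‖v‖⁻¹, abs_of_pos (by positivity), by positivity, (t₁ - t₀) * ‖v‖, by
        have : 0 < t₁ - t₀ := by linarith
        positivity, ?_⟩
      intro t ht
      apply hI.out ht₀ ht₁
      constructor
      · have : 0 ≤ ‖v‖⁻¹ * t := mul_nonneg (by positivity) ht.1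
        linarith
      · have : ‖v‖⁻¹ * t ≤ t₁ - t₀ := by
          rw [inv_mul_le_iff₀ hvn]; linarith [ht.2]
        linarith
  have hlin : HasDerivWithinAt (fun t : ℝ => t₀ + σ * t) σ (Icc 0 κ) 0 := by
    have := ((hasDerivAt_id (0 : ℝ)).const_mul σ).const_add t₀
    simpa using this.hasDerivWithinAt
  have hmaps : MapsTo (fun t : ℝ => t₀ + σ * t) (Icc 0 κ) I := hmem
  have h0 : (fun t : ℝ => t₀ + σ * t) 0 = t₀ := by simp
  have hc' : HasDerivWithinAt (fun t => c (t₀ + σ * t)) (σ • v) (Icc 0 κ) 0 :=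
    HasDerivWithinAt.scomp_of_eq (x := (0 : ℝ)) (h := fun t : ℝ => t₀ + σ * t) hcv hlin hmaps
      h0.symm
  have hq' : HasDerivWithinAt (fun t => fn d hd b (c (t₀ + σ * t))) (σ • q) (Icc 0 κ) 0 :=
    HasDerivWithinAt.scomp_of_eq (x := (0 : ℝ)) (h := fun t : ℝ => t₀ + σ * t) hq hlin hmaps
      h0.symm
  have hnh : 𝓝[Icc 0 κ] (0 : ℝ) = 𝓝[Ici 0] (0 : ℝ) := nhdsWithin_Icc_eq_nhdsGE hκ
  have hc'' : HasDerivWithinAt (fun t => c (t₀ + σ * t)) (σ • v) (Ici 0) 0 := by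
    rw [hasDerivWithinAt_iff_isLittleO] at hc' ⊢
    rwa [hnh] at hc'
  have hq'' : HasDerivWithinAt (fun t => fn d hd b (c (t₀ + σ * t))) (σ • q) (Ici 0) 0 := by
    rw [hasDerivWithinAt_iff_isLittleO] at hq' ⊢
    rwa [hnh] at hq'
  refine core hd hb2 hbe ?_ hc'' hq''
  rw [norm_smul, Real.norm_eq_abs, hσ, inv_mul_cancel₀ hvn.ne']

end Pool.Agent.Results.MP_047b76_an.AlongCurves
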